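import Pool.Agent.N789.MO.Stm

/-!
# MOU/OFF: the correlations of `h` are small at almost all scales (helper135 for helper789)
-/

set_option autoImplicit false

open Finset

namespace Pool.Agent.N135.MO

open Pool.Agent.N789.MO
open Pool.Agent.H376R2.MR (lam)
open Pool.Agent.Y958.U (LZ)

theorem lam_sq (n : ℕ) : lam n * lam n = 1 := by
  unfold lam
  rw [← pow_add, ← two_mul, pow_mul]
  norm_num

theorem lamC_sq (n : ℕ) : (lam n : ℂ) * (lam n : ℂ) = 1 := by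
  have h := lam_sq n
  exact_mod_cast congrArg (fun z : ℤ => (z : ℂ)) h

theorem lamC_norm (n : ℕ) : ‖(lam n : ℂ)‖ = 1 := by
  have h : ‖(lam n : ℂ)‖ * ‖(lam n : ℂ)‖ = 1 := by
    rw [← norm_mul, lamC_sq, norm_one]
  nlinarith [norm_nonneg (lam n : ℂ)]

theorem per_sum (N Q : ℕ) (hQ : 1 ≤ Q) (g : ℕ → ℂ) (hg : ∀ n, g (n + Q) = g n) (s : ℕ → ℝ) :
    ∑ n ∈ range N, (s n : ℂ) * g n =
      ∑ b ∈ range Q, g b * ((∑ n ∈ range N, (if n % Q = b then (1 : ℝ) else 0) * s n : ℝ) : ℂ) := by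
  have hp : Function.Periodic g Q := hg
  have h1 : ∀ b ∈ range Q, g b *
      ((∑ n ∈ range N, (if n % Q = b then (1 : ℝ) else 0) * s n : ℝ) : ℂ) =
      ∑ n ∈ range N, g b * (((if n % Q = b then (1 : ℝ) else 0) * s n : ℝ) : ℂ) := by
    intro b _
    rw [Complex.ofReal_sum, mul_sum]
  rw [sum_congr rfl h1, sum_comm]
  refine sum_congr rfl fun n _ => ?_
  rw [sum_eq_single (n % Q)]
  · rw [hp.map_mod_nat, if_pos rfl, one_mul, mul_comm]
  · intro b _ hb
    rw [if_neg (Ne.symm hb), zero_mul, Complex.ofReal_zero, mul_zero]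
  · intro h
    exact absurd (mem_range.2 (Nat.mod_lt _ hQ)) h

theorem off
    (hO : ∃ F : Set ℕ, LZ F ∧ ∀ h q b a c : ℕ, 1 ≤ h → 1 ≤ q → 1 ≤ a → ∀ ε : ℝ, 0 < ε →
      ∃ N₀ : ℕ, ∀ N : ℕ, N₀ ≤ N → N ∉ F →
        |∑ m ∈ range (a * N + c), (if m % q = b then (1 : ℝ) else 0) * lam m * lam (m + h)| ≤ ε * N)
    (hD : S_DEC) : S_OFF := by
  obtain ⟨F, hF, hO⟩ := hO
  refine ⟨F, hF, fun h B hN r hr ε hε => ?_⟩
  have hB1 : 1 ≤ B := by
    have := hN.bd 1
    rwa [hN.one, norm_one] at this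
  have hB0 : 0 < B := by linarith
  obtain ⟨Q, w, hQ, hwB, hwp, N₁, hN₁⟩ := hD h B hN (ε / (8 * B + 8)) (by positivity)
  have hQ0 : (1 : ℝ) ≤ Q := by exact_mod_cast hQ
  have hO2 := fun b : ℕ => hO r Q b 1 0 hr hQ le_rfl (ε / (4 * B ^ 2 * Q + 1)) (by positivity)
  choose M hM using hO2
  refine ⟨max (max N₁ r) ((range Q).sup M), fun N hNN hNF => ?_⟩
  have hNN₁ : N₁ ≤ N + r :=
    ((le_max_left _ _).trans ((le_max_left _ _).trans hNN)).trans (Nat.le_add_right _ _)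
  have hNr : r ≤ N := (le_max_right _ _).trans ((le_max_left _ _).trans hNN)
  have hNM : ∀ b ∈ range Q, M b ≤ N := fun b hb =>
    (Finset.le_sup hb).trans ((le_max_right _ _).trans hNN)
  obtain ⟨u, hu, hsum⟩ := hN₁ (N + r) hNN₁
  have huu : u * (starRingEnd ℂ) u = 1 := by
    rw [Complex.mul_conj, Complex.normSq_eq_norm_sq, hu]
    norm_num
  -- notation
  obtain ⟨k, hk⟩ : ∃ k : ℕ → ℂ, ∀ n, k n = (lam n : ℂ) * h n := ⟨_, fun _ => rfl⟩
  have hkB : ∀ n, ‖k n‖ ≤ B := by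
    intro n
    rw [hk, norm_mul, lamC_norm, one_mul]
    exact hN.bd n
  obtain ⟨g, hg⟩ : ∃ g : ℕ → ℂ, ∀ n, g n = w (n + r) * (starRingEnd ℂ) (w n) := ⟨_, fun _ => rfl⟩
  have hgB : ∀ n, ‖g n‖ ≤ B ^ 2 := by
    intro n
    rw [hg, norm_mul, RCLike.norm_conj, sq]
    exact mul_le_mul (hwB _) (hwB _) (norm_nonneg _) hB0.le
  have hgp : ∀ n, g (n + Q) = g n := by
    intro n
    rw [hg, hg, hwp, show n + Q + r = n + r + Q by ring, hwp]
  obtain ⟨s, hs⟩ : ∃ s : ℕ → ℝ, ∀ n, s n = (lam n : ℝ) * (lam (n + r) : ℝ) := ⟨_, fun _ => rfl⟩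
  have hsC : ∀ n, (s n : ℂ) = (lam n : ℂ) * (lam (n + r) : ℂ) := by
    intro n
    rw [hs]
    push_cast
    ring
  have hs1 : ∀ n, ‖(s n : ℂ)‖ = 1 := by
    intro n
    rw [hsC, norm_mul, lamC_norm, lamC_norm, one_mul]
  have hterm : ∀ n, h (n + r) * (starRingEnd ℂ) (h n) =
      (s n : ℂ) * g n + (s n : ℂ) * (k (n + r) * (starRingEnd ℂ) (k n) - g n) := by
    intro n
    rw [hsC, hk, hk, map_mul, map_intCast]
    linear_combination (-(h (n + r) * (starRingEnd ℂ) (h n)) * ((lam n : ℂ) * (lam n : ℂ))) *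
      lamC_sq (n + r) - (h (n + r) * (starRingEnd ℂ) (h n)) * lamC_sq n
  have hdiff : ∀ n, ‖k (n + r) * (starRingEnd ℂ) (k n) - g n‖ ≤
      B * ‖k (n + r) - u * w (n + r)‖ + B * ‖k n - u * w n‖ := by
    intro n
    have e : k (n + r) * (starRingEnd ℂ) (k n) - g n =
        (k (n + r) - u * w (n + r)) * (starRingEnd ℂ) (k n) +
          u * w (n + r) * (starRingEnd ℂ) (k n - u * w n) := by
      rw [hg, map_sub, map_mul]
      linear_combination (w (n + r) * (starRingEnd ℂ) (w n)) * huu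
    rw [e]
    refine (norm_add_le _ _).trans ?_
    rw [norm_mul, norm_mul, norm_mul, RCLike.norm_conj, RCLike.norm_conj, hu, one_mul]
    have h1 := hkB n
    have h2 := hwB (n + r)
    have h3 := norm_nonneg (k (n + r) - u * w (n + r))
    have h4 := norm_nonneg (k n - u * w n)
    nlinarith
  have hS1 : ∑ n ∈ range N, ‖k n - u * w n‖ ≤ ε / (8 * B + 8) * (N + r : ℕ) := by
    refine le_trans ?_ hsum
    refine (sum_le_sum_of_subset_of_nonneg (range_mono (Nat.le_add_right N r))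
      fun _ _ _ => norm_nonneg _).trans (le_of_eq ?_)
    exact sum_congr rfl fun n _ => by rw [hk]
  have hS2 : ∑ n ∈ range N, ‖k (n + r) - u * w (n + r)‖ ≤ ε / (8 * B + 8) * (N + r : ℕ) := by
    refine le_trans ?_ hsum
    rw [add_comm N r, sum_range_add]
    refine le_trans (le_of_eq ?_) (le_add_of_nonneg_left (sum_nonneg fun _ _ => norm_nonneg _))
    exact sum_congr rfl fun n _ => by rw [hk, add_comm n r]
  have hmain : ‖∑ n ∈ range N, (s n : ℂ) * g n‖ ≤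
      Q * (B ^ 2 * (ε / (4 * B ^ 2 * Q + 1) * N)) := by
    rw [per_sum N Q hQ g hgp s]
    refine (norm_sum_le _ _).trans ?_
    refine (sum_le_card_nsmul _ _ (B ^ 2 * (ε / (4 * B ^ 2 * Q + 1) * N)) fun b hb => ?_).trans ?_
    · rw [norm_mul, Complex.norm_real, Real.norm_eq_abs]
      refine mul_le_mul (hgB b) ?_ (abs_nonneg _) (by positivity)
      have h1 := hM b N (hNM b hb) hNF
      rw [one_mul, add_zero] at h1
      refine le_trans (le_of_eq ?_) h1
      congr 1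
      exact sum_congr rfl fun n _ => by rw [hs]; ring
    · rw [card_range, nsmul_eq_mul]
  have hNR : (r : ℝ) ≤ N := by exact_mod_cast hNr
  have hfin : ∑ n ∈ range N, h (n + r) * (starRingEnd ℂ) (h n) =
      ∑ n ∈ range N, (s n : ℂ) * g n +
        ∑ n ∈ range N, (s n : ℂ) * (k (n + r) * (starRingEnd ℂ) (k n) - g n) := by
    rw [← sum_add_distrib]
    exact sum_congr rfl fun n _ => hterm n
  have herr : ‖∑ n ∈ range N, (s n : ℂ) * (k (n + r) * (starRingEnd ℂ) (k n) - g n)‖ ≤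
      2 * B * (ε / (8 * B + 8) * (N + r : ℕ)) := by
    refine (norm_sum_le _ _).trans ?_
    refine (sum_le_sum fun n _ => ?_).trans (?_ : ∑ n ∈ range N,
      (B * ‖k (n + r) - u * w (n + r)‖ + B * ‖k n - u * w n‖) ≤ _)
    · rw [norm_mul, hs1, one_mul]
      exact hdiff n
    · rw [sum_add_distrib, ← mul_sum, ← mul_sum]
      nlinarith
  rw [hfin]
  refine (norm_add_le _ _).trans ?_
  have hN0 : (0 : ℝ) ≤ N := Nat.cast_nonneg N
  have e1 : Q * (B ^ 2 * (ε / (4 * B ^ 2 * Q + 1) * N)) ≤ ε / 4 * N := by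
    have : Q * (B ^ 2 * (ε / (4 * B ^ 2 * Q + 1) * N)) =
        ((B ^ 2 * Q) / (4 * B ^ 2 * Q + 1)) * (ε * N) := by ring
    rw [this]
    have h2 : (B ^ 2 * Q) / (4 * B ^ 2 * Q + 1) ≤ 1 / 4 := by
      rw [div_le_div_iff₀ (by positivity) (by norm_num)]
      linarith
    have h3 : 0 ≤ ε * N := by positivity
    nlinarith
  have e2 : 2 * B * (ε / (8 * B + 8) * (N + r : ℕ)) ≤ ε / 2 * N := by
    have : 2 * B * (ε / (8 * B + 8) * (N + r : ℕ)) =
        ((2 * B) / (8 * B + 8)) * (ε * ((N : ℝ) + r)) := by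
      push_cast
      ring
    rw [this]
    have h2 : (2 * B) / (8 * B + 8) ≤ 1 / 4 := by
      rw [div_le_div_iff₀ (by positivity) (by norm_num)]
      linarith
    have h3 : ε * ((N : ℝ) + r) ≤ 2 * (ε * N) := by nlinarith
    have h4 : 0 ≤ ε * ((N : ℝ) + r) := by positivity
    nlinarith
  nlinarith [hmain, herr, e1, e2, mul_nonneg hε.le hN0]

end Pool.Agent.N135.MO
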